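import Mathlib
import Pool.Agent.N778.MZ.Lf2

set_option autoImplicit false

/-!
# Linear forms in damped multiple zeta values

For a sequence `w = (k_1, …, k_r)`, `r ≥ 1`, of positive integers with `k_1 ≥ 2` (a word, in this file) and `j ≥ 0` let
`H_j(w)` be the truncated multiple zeta value `∑ 1/(m_1^{k_1} … m_r^{k_r})`, the sum over `j ≥ m_1 > … > m_r ≥ 1` (`m_1` is the
largest variable, so the sequences are reversed in comparison with the problem page), and `ζ(w)` the multiple zeta value. Let
`S_w(x) = exp (-x) * ∑_j x^j/j! * H_j(w)` be the Poisson mean of the truncated values and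
`T_w(x) = exp (-x) * ∑_j x^j/j! * (ζ(w) - H_j(w))` the Poisson mean of the tails (the sums over `m_1 > j`). So
`T_w(0) = ζ(w)`, `S_w(x) + T_w(x) = ζ(w)` and `S_w(x) → ζ(w)` for real `x → ∞`.

For complex numbers `a_1, …, a_n` with `a_n ≠ 0` let `I(a_1, …, a_n)` be the iterated integral of the forms
`ω_{a_1}(t_1), …, ω_{a_n}(t_n)` over `1 > t_1 > … > t_n > 0`, where `ω_0 = dt / t` and `ω_a = (exp (a t) - 1) dt / t` for
`a ≠ 0`. Let `𝓚` be the field which is generated by all algebraic numbers, all numbers `exp b`, `b` algebraic, and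
all numbers `I(a_1, …, a_n)` with algebraic `a_1, …, a_n`, no two nonzero ones of which have sum zero.

Let `X` be a set of algebraic numbers `x` such that `x + y ≠ 0` for all `x, y` in `X` (for example the set of the
positive algebraic numbers).

(1) Every nontrivial linear combination with coefficients in `𝓚` of the numbers `S_w(x)`, for all words `w` and all `x` in
`X`, is transcendental over `𝓚`.

(2) Let `W` be a finite set of words, for example all words of weight at most `k` or all words of twos and threes of weight `k`.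
For `x` in `X ∪ {0}` let `R(x)` be the space of the linear forms `(a_w)` with coefficients in `𝓚` for which
`∑ a_w T_w(x)` is algebraic over `𝓚`; for `x = 0` these are the linear combinations of the multiple zeta values `ζ(w)`,
`w` in `W`, which are algebraic over `𝓚`, in particular all linear relations. The spaces `R(x)`, `x` in `X ∪ {0}`, are
linearly independent, so the sum of their dimensions is at most `|W|`.

(3) So for every linear form `(a_w) ≠ 0` with coefficients in `𝓚` there is at most one `x` in `X ∪ {0}` such that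
`∑ a_w T_w(x)` is algebraic over `𝓚`. For example, if a nontrivial linear combination `∑ a_w ζ(w)` with rational coefficients,
of arbitrary words, is zero or algebraic, then all the numbers `∑ a_w T_w(x)`, `x` in `X`, are transcendental over `𝓚`.

Hoffman's conjecture says that `R(0)` contains no rational form for the words of twos and threes of weight `k`. For all
words of weight `k` the dimension of `R(0)` is at least `2^{k-2} - d_k`, where `d_k` is the number of the words of twos and threes
(Brown, Terasoma, Deligne-Goncharov), so that the sum of the dimensions of the spaces `R(x)`, `x` in `X`, is at most `d_k`.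

Proof. The series `∑ H_n(w) x^n t^n / n!`, multiplied with `exp (-x t)`, is a combination of words in the letters
`A = exp (-x t) dt/t`, `z = dt/t`, `B = exp (x t) dt/t`; the lexicographically largest one, for `A < z < B`, is the product of
the blocks `A z^{k-2} B`, `k ≥ 2`, and `z`, `k = 1`. It is a product of the Lyndon words `A z^{k-2} B z^m`. Every one of them
gives an iterated commutator of the derivations dual to the letters; these commutators kill `𝓚` and what is algebraic over
`𝓚`, and their products are triangular on the functions of the words. The functions have to be replaced by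
the values with helper902's theorem (from the Siegel-Shidlovskii theorem in the starting files).
-/

namespace Pool.Agent.Results.MP_c2d7b4_nt.LinearForms

open Filter Topology Set

/-- the truncated multiple zeta value: `H_j(k_1, …, k_r)` is the sum over `j ≥ m_1 > … > m_r ≥ 1` -/
noncomputable def H : List ℕ → ℕ → ℂ
  | [], _ => 1
  | k :: w, j => ∑ i ∈ Finset.range j, H w i / ((i : ℂ) + 1) ^ k

/-- the multiple zeta value (here `m_1 = i + 1`) -/
noncomputable def zeta : List ℕ → ℂ
  | [] => 1
  | k :: w => ∑' i : ℕ, H w i / ((i : ℂ) + 1) ^ k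

/-- the tail: the sum over `m_1 > j` (here `m_1 = i + j + 1`) -/
noncomputable def tail : List ℕ → ℕ → ℂ
  | [], _ => 0
  | k :: w, j => ∑' i : ℕ, H w (i + j) / ((i : ℂ) + j + 1) ^ k

/-- `S_w(x)` -/
noncomputable def S (w : List ℕ) (x : ℂ) : ℂ := Complex.exp (-x) * ∑' j : ℕ, x ^ j / j.factorial * H w j

/-- `T_w(x)` -/
noncomputable def T (w : List ℕ) (x : ℂ) : ℂ := Complex.exp (-x) * ∑' j : ℕ, x ^ j / j.factorial * tail w j

/-- a word: a nonempty sequence of positive integers, the first one is at least `2` -/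
def Word (w : List ℕ) : Prop := 2 ≤ w.headD 0 ∧ ∀ k ∈ w, 1 ≤ k

/-- the iterated integral of `ω_{a_1}(t_1), …, ω_{a_n}(t_n)` over `t > t_1 > … > t_n > 0` -/
noncomputable def iterated : List ℂ → ℝ → ℂ
  | [], _ => 1
  | a :: v, t => ∫ s in (0 : ℝ)..t, (if a = 0 then 1 else Complex.exp (a * s) - 1) * iterated v s / s

/-- `I(a_1, …, a_n)` -/
noncomputable def I (w : List ℂ) : ℂ := iterated w 1

/-- the entries are algebraic, the last one is not zero, no two nonzero entries have sum zero -/
def Admissible (w : List ℂ) : Prop :=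
  (∀ a ∈ w, IsAlgebraic ℚ a) ∧ (∀ h : w ≠ [], w.getLast h ≠ 0) ∧ ∀ a ∈ w, a ≠ 0 → -a ∉ w

/-- the field `𝓚` -/
noncomputable def baseField : IntermediateField ℚ ℂ := IntermediateField.adjoin ℚ
  ({z | IsAlgebraic ℚ z} ∪ {z | ∃ b : ℂ, IsAlgebraic ℚ b ∧ z = Complex.exp b} ∪
    {z | ∃ w : List ℂ, Admissible w ∧ z = I w})

/-- the condition on the set `X` -/
def Points (X : Set ℂ) : Prop := ∀ x ∈ X, IsAlgebraic ℚ x ∧ ∀ y ∈ X, x + y ≠ 0

/-- the value of a linear form -/
noncomputable def value (W : Finset (List ℕ)) (a : W → baseField) (x : ℂ) : ℂ := ∑ w : W, (a w : ℂ) * T w x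

/-- the space `R(x)` of the linear forms whose value is algebraic over `𝓚` -/
def R (W : Finset (List ℕ)) (x : ℂ) : Submodule baseField (W → baseField) where
  carrier := {a | IsAlgebraic baseField (value W a x)}
  zero_mem' := by
    have h : value W 0 x = 0 := Finset.sum_eq_zero fun w _ => by simp
    rw [Set.mem_ofPred_eq, h]
    exact isAlgebraic_zero
  add_mem' := by
    intro a b ha hb
    have h : value W (a + b) x = value W a x + value W b x := by
      rw [value, value, value, ← Finset.sum_add_distrib]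
      refine Finset.sum_congr rfl fun w _ => ?_
      show ((a w + b w : baseField) : ℂ) * T w x = _
      push_cast
      ring
    rw [Set.mem_ofPred_eq, h]
    exact IsAlgebraic.add ha hb
  smul_mem' := by
    intro c a ha
    have h : value W (c • a) x = (c : ℂ) * value W a x := by
      rw [value, value, Finset.mul_sum]
      refine Finset.sum_congr rfl fun w _ => ?_
      show ((c * a w : baseField) : ℂ) * T w x = _
      push_cast
      ring
    rw [Set.mem_ofPred_eq, h]
    exact IsAlgebraic.mul (isAlgebraic_algebraMap c) ha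

open Pool.Agent.N902.EW (II KK)
open Pool.Agent.N778

theorem iterated_eq (w : List ℂ) : ∀ t : ℝ, iterated w t = II w t := by
  induction w with
  | nil => intro t; rfl
  | cons a v ih =>
    intro t
    rw [iterated, II]
    refine intervalIntegral.integral_congr fun s _ => ?_
    show (if a = 0 then 1 else Complex.exp (a * s) - 1) * iterated v s / s = _
    rw [ih]

theorem baseField_eq : baseField = KK := by
  rw [baseField, KK]
  congr 2
  ext z
  constructor
  · rintro ⟨w, hw, rfl⟩
    exact ⟨w, ⟨hw.1, hw.2.1⟩, hw.2.2, iterated_eq w 1⟩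
  · rintro ⟨w, hw, hno, rfl⟩
    exact ⟨w, ⟨hw.1, hw.2, hno⟩, (iterated_eq w 1).symm⟩

theorem H_eq (w : List ℕ) (j : ℕ) : H w j = MZ.H w j := by
  induction w generalizing j with
  | nil => rfl
  | cons k w ih =>
    rw [H, MZ.H]
    exact Finset.sum_congr rfl fun i _ => by rw [ih]

theorem zeta_eq (w : List ℕ) : zeta w = MZ.zt w := by
  rcases w with _ | ⟨k, w⟩
  · rfl
  · rw [zeta, MZ.zt]
    exact tsum_congr fun i => by rw [H_eq]

theorem tail_eq (w : List ℕ) (j : ℕ) : tail w j = MZ.tl w j := by
  rcases w with _ | ⟨k, w⟩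
  · rfl
  · rw [tail, MZ.tl]
    exact tsum_congr fun i => by rw [H_eq]

theorem S_eq (w : List ℕ) (x : ℂ) : S w x = MZ.S w x := by
  rw [S, MZ.S]
  congr 1
  exact tsum_congr fun j => by rw [H_eq]

theorem T_eq (w : List ℕ) (x : ℂ) : T w x = MZ.T w x := by
  rw [T, MZ.T]
  congr 1
  exact tsum_congr fun j => by rw [tail_eq]

theorem word_ad {w : List ℕ} (h : Word w) : MZ.AdW w := by
  rcases w with _ | ⟨k, w⟩
  · exact absurd h.1 (by simp)
  · exact ⟨h.1, fun l hl => h.2 l (List.mem_cons_of_mem _ hl)⟩

theorem mem_R {W : Finset (List ℕ)} {x : ℂ} {a : W → baseField} : a ∈ R W x ↔ IsAlgebraic baseField (value W a x) := Iff.rfl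

theorem part1 {X : Set ℂ} (hX : Points X) (P : Finset (List ℕ × ℂ)) (hP : ∀ p ∈ P, Word p.1 ∧ p.2 ∈ X)
    (a : List ℕ × ℂ → baseField) (h : IsAlgebraic baseField (∑ p ∈ P, (a p : ℂ) * S p.1 p.2)) : ∀ p ∈ P, a p = 0 := by
  have h1 : IsAlgebraic KK (∑ p ∈ P, (a p : ℂ) * MZ.S p.1 p.2) := by
    have e : ∑ p ∈ P, (a p : ℂ) * S p.1 p.2 = ∑ p ∈ P, (a p : ℂ) * MZ.S p.1 p.2 :=
      Finset.sum_congr rfl fun p _ => by rw [S_eq]
    rw [e] at h
    rw [← baseField_eq]
    exact h
  have hmem : ∀ z : baseField, (z : ℂ) ∈ KK := fun z => baseField_eq ▸ z.2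
  have h2 := MZ.lf_S hX P (fun p hp => ⟨word_ad (hP p hp).1, (hP p hp).2⟩) (fun p => (⟨(a p : ℂ), hmem _⟩ : KK)) h1
  intro p hp
  have h3 : (a p : ℂ) = ((0 : KK) : ℂ) := congrArg (fun z : KK => (z : ℂ)) (h2 p hp)
  rw [ZeroMemClass.coe_zero] at h3
  exact ZeroMemClass.coe_eq_zero.1 h3

theorem S_zero {w : List ℕ} (hw : Word w) : S w 0 = 0 := by
  rw [S_eq]
  exact MZ.S_zeron (word_ad hw).wo.1

theorem T_val {w : List ℕ} (hw : Word w) (x : ℂ) : T w x = zeta w - S w x := by
  rw [T_eq, zeta_eq, S_eq]
  exact MZ.Tn_eq (word_ad hw) x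

theorem part2 {X : Set ℂ} (hX : Points X) {W : Finset (List ℕ)} (hW : ∀ w ∈ W, Word w) (P : Finset ℂ)
    (hP : ∀ x ∈ P, x ∈ X ∨ x = 0) (a : ℂ → W → baseField) (ha : ∀ x ∈ P, a x ∈ R W x) (hsum : ∑ x ∈ P, a x = 0) :
    ∀ x ∈ P, a x = 0 := by
  classical
  let Q : Finset (List ℕ × ℂ) := W ×ˢ (P.filter fun x => x ≠ 0)
  let b : List ℕ × ℂ → baseField := fun p => if hp : p.1 ∈ W then a p.2 ⟨p.1, hp⟩ else 0
  have e1 : ∑ x ∈ P, value W (a x) x = -∑ p ∈ Q, (b p : ℂ) * S p.1 p.2 := by
    have e2 : ∑ x ∈ P, value W (a x) x = ∑ x ∈ P, ∑ w : W, (a x w : ℂ) * zeta w - ∑ x ∈ P, ∑ w : W, (a x w : ℂ) * S w x := by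
      rw [← Finset.sum_sub_distrib]
      refine Finset.sum_congr rfl fun x _ => ?_
      rw [value, ← Finset.sum_sub_distrib]
      refine Finset.sum_congr rfl fun w _ => ?_
      rw [T_val (hW w w.2), mul_sub]
    have e3 : ∑ x ∈ P, ∑ w : W, (a x w : ℂ) * zeta w = 0 := by
      rw [Finset.sum_comm]
      refine Finset.sum_eq_zero fun w _ => ?_
      rw [← Finset.sum_mul]
      have h1 : ((∑ x ∈ P, a x) w : baseField) = 0 := by rw [hsum]; rfl
      rw [Finset.sum_apply] at h1
      have h2 : ∑ x ∈ P, (a x w : ℂ) = 0 := by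
        have h3 := congrArg (fun z : baseField => (z : ℂ)) h1
        simpa using h3
      rw [h2, zero_mul]
    have e4 : ∑ x ∈ P, ∑ w : W, (a x w : ℂ) * S w x = ∑ p ∈ Q, (b p : ℂ) * S p.1 p.2 := by
      rw [Finset.sum_product_right, Finset.sum_filter]
      refine Finset.sum_congr rfl fun x _ => ?_
      by_cases hx : x ≠ 0
      · rw [if_pos hx, ← Finset.sum_coe_sort W]
        refine Finset.sum_congr rfl fun w _ => ?_
        have h1 : b ((w : List ℕ), x) = a x w := dif_pos w.2
        show _ = (b ((w : List ℕ), x) : ℂ) * S w x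
        rw [h1]
      · rw [if_neg hx]
        rw [not_not] at hx
        subst hx
        exact Finset.sum_eq_zero fun w _ => by rw [S_zero (hW w w.2), mul_zero]
    rw [e2, e3, e4, zero_sub]
  have h1 : IsAlgebraic baseField (∑ x ∈ P, value W (a x) x) := by
    have key : ∀ P' : Finset ℂ, (∀ x ∈ P', a x ∈ R W x) → IsAlgebraic baseField (∑ x ∈ P', value W (a x) x) := by
      intro P'
      induction P' using Finset.induction_on with
      | empty => intro _; rw [Finset.sum_empty]; exact isAlgebraic_zero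
      | insert x P' hx ih =>
        intro h
        rw [Finset.sum_insert hx]
        exact IsAlgebraic.add (h x (Finset.mem_insert_self _ _)) (ih fun y hy => h y (Finset.mem_insert_of_mem hy))
    exact key P ha
  rw [e1] at h1
  have h2 : IsAlgebraic baseField (∑ p ∈ Q, (b p : ℂ) * S p.1 p.2) := by
    have h3 := IsAlgebraic.neg h1
    rwa [neg_neg] at h3
  have h3 := part1 hX Q (fun p hp => by
    obtain ⟨hp1, hp2⟩ := Finset.mem_product.1 hp
    obtain ⟨hp3, hp4⟩ := Finset.mem_filter.1 hp2
    exact ⟨hW _ hp1, (hP _ hp3).resolve_right hp4⟩) b h2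
  have h4 : ∀ x ∈ P, x ≠ 0 → a x = 0 := by
    intro x hx hx0
    funext w
    have h5 := h3 ((w : List ℕ), x) (Finset.mem_product.2 ⟨w.2, Finset.mem_filter.2 ⟨hx, hx0⟩⟩)
    have h6 : b ((w : List ℕ), x) = a x w := dif_pos w.2
    rw [h6] at h5
    exact h5
  intro x hx
  by_cases hx0 : x = 0
  · subst hx0
    rw [← hsum]
    symm
    refine Finset.sum_eq_single_of_mem 0 hx fun y hy hy0 => h4 y hy hy0
  · exact h4 x hx hx0

theorem part3 {X : Set ℂ} (hX : Points X) {W : Finset (List ℕ)} (hW : ∀ w ∈ W, Word w) (P : Finset ℂ)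
    (hP : ∀ x ∈ P, x ∈ X ∨ x = 0) : ∑ x ∈ P, Module.finrank baseField (R W x) ≤ W.card := by
  classical
  let L : ((x : P) → R W (x : ℂ)) →ₗ[baseField] (W → baseField) :=
    ∑ x : P, (R W (x : ℂ)).subtype.comp (LinearMap.proj x)
  have hL : ∀ a, L a = ∑ x : P, (a x : W → baseField) := by
    intro a
    rw [LinearMap.sum_apply]
    rfl
  have hinj : Function.Injective L := by
    rw [← LinearMap.ker_eq_bot, LinearMap.ker_eq_bot']
    intro a ha
    rw [hL] at ha
    let b : ℂ → W → baseField := fun x => if hx : x ∈ P then a ⟨x, hx⟩ else 0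
    have hb : ∀ x : P, b x = a x := fun x => dif_pos x.2
    have h1 := part2 hX hW P hP b (fun x hx => by
      have h2 : b x = a ⟨x, hx⟩ := hb ⟨x, hx⟩
      rw [h2]
      exact (a ⟨x, hx⟩).2) (by
      rw [← Finset.sum_coe_sort P]
      rw [← ha]
      exact Finset.sum_congr rfl fun x _ => hb x)
    funext x
    apply Subtype.ext
    rw [← hb x]
    exact h1 x x.2
  have h1 := LinearMap.finrank_le_finrank_of_injective hinj
  rw [Module.finrank_pi_fintype, Module.finrank_fintype_fun_eq_card, Fintype.card_coe,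
    Finset.sum_coe_sort P (fun x => Module.finrank baseField (R W x))] at h1
  exact h1

/-- **Linear forms in damped multiple zeta values** -/
theorem result (X : Set ℂ) (hX : Points X) :
    -- the limit cases `x = 0` and `x → ∞`
    (∀ w : List ℕ, Word w → T w 0 = zeta w ∧ (∀ x : ℂ, S w x + T w x = zeta w) ∧
      Tendsto (fun x : ℝ => S w x) atTop (𝓝 (zeta w))) ∧
    -- (1)
    (∀ (P : Finset (List ℕ × ℂ)) (a : List ℕ × ℂ → baseField), (∀ p ∈ P, Word p.1 ∧ p.2 ∈ X) → (∃ p ∈ P, a p ≠ 0) →
      Transcendental baseField (∑ p ∈ P, (a p : ℂ) * S p.1 p.2)) ∧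
    ∀ W : Finset (List ℕ), (∀ w ∈ W, Word w) →
      -- (2)
      (∀ P : Finset ℂ, (∀ x ∈ P, x ∈ X ∨ x = 0) →
        (∀ a : ℂ → W → baseField, (∀ x ∈ P, a x ∈ R W x) → ∑ x ∈ P, a x = 0 → ∀ x ∈ P, a x = 0) ∧
        ∑ x ∈ P, Module.finrank baseField (R W x) ≤ W.card) ∧
      -- (3)
      (∀ a : W → baseField, a ≠ 0 → {x : ℂ | (x ∈ X ∨ x = 0) ∧ IsAlgebraic baseField (value W a x)}.Subsingleton) := by
  classical
  refine ⟨fun w hw => ?_, fun P a hP hne halg => ?_, fun W hW => ⟨fun P hP => ⟨fun a ha hs => part2 hX hW P hP a ha hs,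
    part3 hX hW P hP⟩, fun a ha x hx y hy => ?_⟩⟩
  · have hw' : MZ.AdW w := word_ad hw
    refine ⟨?_, fun x => ?_, ?_⟩
    · rw [T_eq, zeta_eq]
      exact MZ.T_zeron hw'
    · rw [T_eq, zeta_eq, S_eq]
      exact MZ.S_add_Tn hw' x
    · rw [zeta_eq]
      refine (MZ.Sn_tendsto hw').congr fun x => ?_
      rw [S_eq]
  · obtain ⟨p, hp, hne⟩ := hne
    exact hne (part1 hX P hP a halg p hp)
  · by_contra hxy
    refine ha ?_
    have h1 := part2 hX hW {x, y} (by
      intro z hz
      rcases Finset.mem_insert.1 hz with rfl | hz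
      · exact hx.1
      · rw [Finset.mem_singleton.1 hz]
        exact hy.1) (fun z => if z = x then a else -a) (by
      intro z hz
      rcases Finset.mem_insert.1 hz with rfl | hz
      · rw [if_pos rfl]
        exact hx.2
      · rw [Finset.mem_singleton.1 hz, if_neg (fun h => hxy h.symm)]
        exact (R W y).neg_mem hy.2) (by
      rw [Finset.sum_pair hxy, if_pos rfl, if_neg (fun h => hxy h.symm), add_neg_cancel]) x (Finset.mem_insert_self _ _)
    rwa [if_pos rfl] at h1

end Pool.Agent.Results.MP_c2d7b4_nt.LinearForms
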