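import Mathlib
import Pool.Agent.N778.MZ.Co

set_option autoImplicit false

/-!
# Damped multiple zeta values of Lyndon words: algebraic independence, at most one exception for every word

For a sequence `w = (k_1, …, k_r)`, `r ≥ 1`, of integers `k_i ≥ 2` and `j ≥ 0` let `H_j(w)` be the truncated multiple
zeta value `∑ 1/(m_1^{k_1} … m_r^{k_r})`, the sum over `j ≥ m_1 > … > m_r ≥ 1`, and `ζ(w)` the multiple zeta value.
Let `S_w(x) = exp (-x) * ∑_j x^j/j! * H_j(w)` be the Poisson mean of the truncated values and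
`T_w(x) = exp (-x) * ∑_j x^j/j! * (ζ(w) - H_j(w))` the Poisson mean of the tails (the sums over `m_1 > j`). So
`T_w(0) = ζ(w)`, `S_w(x) + T_w(x) = ζ(w)` and `S_w(x) → ζ(w)` for real `x → ∞`.

Fix a linear order of the integers (given by an injective map `φ` to the integers) and a direction of reading (`ρ`). A
sequence is a Lyndon word if it has length one or is a product `u v` of Lyndon words `u < v` (for the lexicographic
order). In this file a word is a sequence of integers at least `2` which is a Lyndon word if it is read in the chosen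
direction. Brown proved that the `ζ(w)` for the words `w` with letters `2` and `3` (order `3 < 2`, read from the right)
generate the algebra of the multiple zeta values; the conjecture says that they are algebraically independent.

For complex numbers `a_1, …, a_n` with `a_n ≠ 0` let `I(a_1, …, a_n)` be the iterated integral of the forms
`ω_{a_1}(t_1), …, ω_{a_n}(t_n)` over `1 > t_1 > … > t_n > 0`, where `ω_0 = dt / t` and `ω_a = (exp (a t) - 1) dt / t` for
`a ≠ 0`. Let `𝓚` be the field which is generated by all algebraic numbers, all numbers `exp b`, `b` algebraic, and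
all numbers `I(a_1, …, a_n)` with algebraic `a_1, …, a_n`, no two nonzero ones of which have sum zero.

Let `X` be a set of algebraic numbers `x` such that `x + y ≠ 0` for all `x, y` in `X` (for example the set of the
positive algebraic numbers).

(1) The numbers `S_w(x)`, for all words `w` and all `x` in `X`, are algebraically independent over `𝓚`.

(2) Let `(z_b)` be a family of complex numbers and for every word `w` let `β(w)` be an index such that `ζ(w)` is
algebraic over `𝓚(z_{β(w)})`. The numbers `z_b` and `T_w(x)`, `β(w) = b`, `x ∈ X`, form the block of `b`. One can leave out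
at most one number in every block such that all the remaining numbers, of all blocks together, are algebraically
independent over `𝓚`. For example: for every word `w` one can leave out at most one of the numbers `ζ(w)`, `T_w(x)`, `x ∈ X`.

(3) Let `W` be a finite set of words, for example the Lyndon words with letters `2` and `3` and sum at most `k`. We call
a point `x` in `X ∪ {0}` exceptional if the numbers `T_w(x)`, `w` in `W`, are algebraically dependent over `𝓚`; for `x = 0`
these are the multiple zeta values `ζ(w)`. If the `ζ(w)`, `w` in `W`, are algebraic over `𝓚(y_1, …, y_r)` then there are at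
most `r` exceptional points in `X` (so the transcendence degree of the field generated by the `ζ(w)` over `𝓚` is at
least the number of the exceptional points in `X`). There are at most `|W|` exceptional points in `X ∪ {0}`.

Proof. The series `∑ H_n(w) x^n t^n / n!`, multiplied with `exp (-x t)`, is a combination of iterated integrals of
`dt/t`, `(exp (x t) - 1) dt/t`, `(exp (-x t) - 1) dt/t` with a leading word which determines `w`. Commutators of the
derivations which remove the first letter (helper902) kill `𝓚`; the iterated commutators which belong to the bracketing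
of the Lyndon words are triangular on these functions, which gives the algebraic independence of the functions, and
also of the values by helper902's theorem (from the Siegel-Shidlovskii theorem in the starting files). (2) is my
exchange theorem for stars.
-/

namespace Pool.Agent.Results.MP_c2d7b4_nt.LyndonExceptions

open Filter Topology Set

/-- the truncated multiple zeta value: `H_j(k_1, …, k_r)` is the sum over `j ≥ m_1 > … > m_r ≥ 1` -/
noncomputable def H : List ℕ → ℕ → ℂ
  | [], _ => 1
  | k :: w, j => ∑ i ∈ Finset.range j, H w i / ((i : ℂ) + 1) ^ k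

/-- the multiple zeta value (here `m_1 = i + 1`) -/
noncomputable def zeta : List ℕ → ℂ
  | [] => 1
  | k :: w => ∑' i : ℕ, H w i / ((i : ℂ) + 1) ^ k

/-- the tail: the sum over `m_1 > j` (here `m_1 = i + j + 1`) -/
noncomputable def tail : List ℕ → ℕ → ℂ
  | [], _ => 0
  | k :: w, j => ∑' i : ℕ, H w (i + j) / ((i : ℂ) + j + 1) ^ k

/-- `S_w(x)` -/
noncomputable def S (w : List ℕ) (x : ℂ) : ℂ := Complex.exp (-x) * ∑' j : ℕ, x ^ j / j.factorial * H w j

/-- `T_w(x)` -/
noncomputable def T (w : List ℕ) (x : ℂ) : ℂ := Complex.exp (-x) * ∑' j : ℕ, x ^ j / j.factorial * tail w j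

/-- Lyndon words: the letters, and `u v` for Lyndon words `u < v` (lexicographic order, the order of the letters is
the order of their images under `φ`) -/
inductive Lyndon (φ : ℕ → ℤ) : List ℕ → Prop
  | letter (a : ℕ) : Lyndon φ [a]
  | mul (u v : List ℕ) : Lyndon φ u → Lyndon φ v → u.map φ < v.map φ → Lyndon φ (u ++ v)

/-- sequences of integers `≥ 2` which are Lyndon words if they are read from the left (`ρ = false`) or from the
right (`ρ = true`) -/
def Word (φ : ℕ → ℤ) (ρ : Bool) (w : List ℕ) : Prop := Lyndon φ (if ρ then w.reverse else w) ∧ ∀ k ∈ w, 2 ≤ k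

/-- the iterated integral of `ω_{a_1}(t_1), …, ω_{a_n}(t_n)` over `t > t_1 > … > t_n > 0` -/
noncomputable def iterated : List ℂ → ℝ → ℂ
  | [], _ => 1
  | a :: v, t => ∫ s in (0 : ℝ)..t, (if a = 0 then 1 else Complex.exp (a * s) - 1) * iterated v s / s

/-- `I(a_1, …, a_n)` -/
noncomputable def I (w : List ℂ) : ℂ := iterated w 1

/-- the entries are algebraic, the last one is not zero, no two nonzero entries have sum zero -/
def Admissible (w : List ℂ) : Prop :=
  (∀ a ∈ w, IsAlgebraic ℚ a) ∧ (∀ h : w ≠ [], w.getLast h ≠ 0) ∧ ∀ a ∈ w, a ≠ 0 → -a ∉ w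

/-- the field `𝓚` -/
noncomputable def baseField : IntermediateField ℚ ℂ := IntermediateField.adjoin ℚ
  ({z | IsAlgebraic ℚ z} ∪ {z | ∃ b : ℂ, IsAlgebraic ℚ b ∧ z = Complex.exp b} ∪
    {z | ∃ w : List ℂ, Admissible w ∧ z = I w})

/-- the condition on the set `X` -/
def Points (X : Set ℂ) : Prop := ∀ x ∈ X, IsAlgebraic ℚ x ∧ ∀ y ∈ X, x + y ≠ 0

/-- the field `𝓚(Y)` -/
noncomputable def fieldWith (Y : Set ℂ) : IntermediateField baseField ℂ := IntermediateField.adjoin baseField Y

/-- the pairs of a word and a point of `X` -/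
abbrev Pair (φ : ℕ → ℤ) (ρ : Bool) (X : Set ℂ) : Type := {p : List ℕ × ℂ // Word φ ρ p.1 ∧ p.2 ∈ X}

/-- the numbers `T_w(x)`, `w` in `W`, are algebraically independent over `𝓚` -/
def IndepAt (W : Finset (List ℕ)) (x : ℂ) : Prop := AlgebraicIndependent baseField (fun w : W => T w x)

open Pool.Agent.N902.EW (II KK)
open Pool.Agent.N778

theorem iterated_eq (w : List ℂ) : ∀ t : ℝ, iterated w t = II w t := by
  induction w with
  | nil => intro t; rfl
  | cons a v ih =>
    intro t
    rw [iterated, II]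
    refine intervalIntegral.integral_congr fun s _ => ?_
    show (if a = 0 then 1 else Complex.exp (a * s) - 1) * iterated v s / s = _
    rw [ih]

theorem baseField_eq : baseField = KK := by
  rw [baseField, KK]
  congr 2
  ext z
  constructor
  · rintro ⟨w, hw, rfl⟩
    exact ⟨w, ⟨hw.1, hw.2.1⟩, hw.2.2, iterated_eq w 1⟩
  · rintro ⟨w, hw, hno, rfl⟩
    exact ⟨w, ⟨hw.1, hw.2, hno⟩, (iterated_eq w 1).symm⟩

theorem ind_iff {ι : Type} (z : ι → ℂ) : AlgebraicIndependent baseField z ↔ AlgebraicIndependent KK z := by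
  rw [baseField_eq]

theorem alg_iff (Y : Set ℂ) (z : ℂ) : IsAlgebraic (fieldWith Y) z ↔ IsAlgebraic (IntermediateField.adjoin KK Y) z := by
  rw [fieldWith]
  rw [baseField_eq]

theorem H_eq (w : List ℕ) (j : ℕ) : H w j = MZ.H w j := by
  induction w generalizing j with
  | nil => rfl
  | cons k w ih =>
    rw [H, MZ.H]
    exact Finset.sum_congr rfl fun i _ => by rw [ih]

theorem zeta_eq (w : List ℕ) : zeta w = MZ.zt w := by
  rcases w with _ | ⟨k, w⟩
  · rfl
  · rw [zeta, MZ.zt]
    exact tsum_congr fun i => by rw [H_eq]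

theorem tail_eq (w : List ℕ) (j : ℕ) : tail w j = MZ.tl w j := by
  rcases w with _ | ⟨k, w⟩
  · rfl
  · rw [tail, MZ.tl]
    exact tsum_congr fun i => by rw [H_eq]

theorem S_eq (w : List ℕ) (x : ℂ) : S w x = MZ.S w x := by
  rw [S, MZ.S]
  congr 1
  exact tsum_congr fun j => by rw [H_eq]

theorem T_eq (w : List ℕ) (x : ℂ) : T w x = MZ.T w x := by
  rw [T, MZ.T]
  congr 1
  exact tsum_congr fun j => by rw [tail_eq]

theorem lyndon_iff (φ : ℕ → ℤ) (w : List ℕ) : Lyndon φ w ↔ MZ.LynO φ w := by
  constructor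
  · intro h
    induction h with
    | letter a => exact MZ.LynO.letter a
    | mul u v _ _ huv hu hv => exact MZ.LynO.mul u v hu hv huv
  · intro h
    induction h with
    | letter a => exact Lyndon.letter a
    | mul u v _ _ huv hu hv => exact Lyndon.mul u v hu hv huv

theorem word_iff (φ : ℕ → ℤ) (ρ : Bool) (w : List ℕ) : Word φ ρ w ↔ MZ.LW φ ρ w := by
  rw [Word, MZ.LW, lyndon_iff]
  exact Iff.rfl

section

variable {φ : ℕ → ℤ} {ρ : Bool} {X : Set ℂ}

/-- change of the index set -/
def conv (p : Pair φ ρ X) : {p : List ℕ × ℂ // MZ.LW φ ρ p.1 ∧ p.2 ∈ X} := ⟨p.1, (word_iff _ _ _).1 p.2.1, p.2.2⟩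

theorem conv_inj : Function.Injective (conv (φ := φ) (ρ := ρ) (X := X)) := by
  intro p q h
  exact Subtype.ext (congrArg (fun z : {p : List ℕ × ℂ // MZ.LW φ ρ p.1 ∧ p.2 ∈ X} => z.1) h)

theorem part1 (hφ : Function.Injective φ) (ρ : Bool) (hX : Points X) :
    AlgebraicIndependent baseField (fun p : Pair φ ρ X => S p.1.1 p.1.2) := by
  rw [ind_iff]
  have h := (MZ.ai_S hφ ρ X hX).comp conv conv_inj
  have e : (fun p : Pair φ ρ X => S p.1.1 p.1.2) =
      (fun p : {p : List ℕ × ℂ // MZ.LW φ ρ p.1 ∧ p.2 ∈ X} => MZ.S p.1.1 p.1.2) ∘ conv := by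
    funext p
    exact S_eq p.1.1 p.1.2
  rw [e]
  exact h

theorem part2 (hφ : Function.Injective φ) (ρ : Bool) (hX : Points X) {B : Type} (z : B → ℂ) (β : List ℕ → B)
    (hβ : ∀ w, Word φ ρ w → IsAlgebraic (fieldWith {z (β w)}) (zeta w)) :
    ∃ N : Set (B ⊕ Pair φ ρ X), (∀ p ∈ N, ∀ q ∈ N, Sum.elim id (fun p : Pair φ ρ X => β p.1.1) p =
        Sum.elim id (fun p : Pair φ ρ X => β p.1.1) q → p = q) ∧
      AlgebraicIndependent baseField
        (fun p : {p // p ∉ N} => Sum.elim z (fun p : Pair φ ρ X => T p.1.1 p.1.2) p.1) := by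
  obtain ⟨C, hC, hC2⟩ := MZ.lyn_star hφ ρ X hX z β fun w hw => by
    have h1 := (alg_iff _ _).1 (hβ w ((word_iff φ ρ w).2 hw))
    rwa [zeta_eq] at h1
  let g : B ⊕ Pair φ ρ X → B ⊕ {p : List ℕ × ℂ // MZ.LW φ ρ p.1 ∧ p.2 ∈ X} := Sum.map id conv
  have hg : Function.Injective g := Sum.map_injective.2 ⟨Function.injective_id, conv_inj⟩
  have hb : ∀ p : B ⊕ Pair φ ρ X, Sum.elim id (fun p : {p : List ℕ × ℂ // MZ.LW φ ρ p.1 ∧ p.2 ∈ X} => β p.1.1) (g p) =
      Sum.elim id (fun p : Pair φ ρ X => β p.1.1) p := by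
    rintro (b | p) <;> rfl
  refine ⟨{p | g p ∉ C}, fun p hp q hq hpq => ?_, ?_⟩
  · refine hg (hC _ _ hp hq ?_)
    rw [hb, hb]
    exact hpq
  · rw [ind_iff]
    have hin : ∀ p : {p // p ∉ {p : B ⊕ Pair φ ρ X | g p ∉ C}}, g p.1 ∈ C := fun p => not_not.1 p.2
    have h1 := hC2.comp (fun p : {p // p ∉ {p : B ⊕ Pair φ ρ X | g p ∉ C}} => (⟨g p.1, hin p⟩ : C)) (by
      intro p q h
      exact Subtype.ext (hg (congrArg (fun z : C => z.1) h)))
    convert h1 using 1
    funext p
    obtain ⟨p, hp⟩ := p
    rcases p with b | p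
    · rfl
    · exact T_eq p.1.1 p.1.2

end

theorem indepAt_iff (W : Finset (List ℕ)) (x : ℂ) :
    IndepAt W x ↔ AlgebraicIndependent KK (fun w : W => MZ.T w x) := by
  rw [IndepAt, ind_iff]
  have e : (fun w : W => T w x) = fun w : W => MZ.T w x := by
    funext w
    exact T_eq w x
  rw [e]

/-- **Damped multiple zeta values of Lyndon words** -/
theorem result (X : Set ℂ) (hX : Points X) (φ : ℕ → ℤ) (hφ : Function.Injective φ) (ρ : Bool) :
    -- the limit cases `x = 0` and `x → ∞`
    (∀ w : List ℕ, Word φ ρ w → T w 0 = zeta w ∧ (∀ x : ℂ, S w x + T w x = zeta w) ∧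
      Tendsto (fun x : ℝ => S w x) atTop (𝓝 (zeta w))) ∧
    -- (1)
    AlgebraicIndependent baseField (fun p : Pair φ ρ X => S p.1.1 p.1.2) ∧
    -- (2)
    (∀ (B : Type) (z : B → ℂ) (β : List ℕ → B), (∀ w, Word φ ρ w → IsAlgebraic (fieldWith {z (β w)}) (zeta w)) →
      ∃ N : Set (B ⊕ Pair φ ρ X), (∀ p ∈ N, ∀ q ∈ N, Sum.elim id (fun p : Pair φ ρ X => β p.1.1) p =
          Sum.elim id (fun p : Pair φ ρ X => β p.1.1) q → p = q) ∧
        AlgebraicIndependent baseField
          (fun p : {p // p ∉ N} => Sum.elim z (fun p : Pair φ ρ X => T p.1.1 p.1.2) p.1)) ∧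
    -- (3)
    (∀ W : Finset (List ℕ), (∀ w ∈ W, Word φ ρ w) →
      (∀ (r : ℕ) (y : Fin r → ℂ), (∀ w ∈ W, IsAlgebraic (fieldWith (range y)) (zeta w)) →
        {x : ℂ | x ∈ X ∧ ¬ IndepAt W x}.encard ≤ r) ∧
      {x : ℂ | (x ∈ X ∨ x = 0) ∧ ¬ IndepAt W x}.encard ≤ W.card) := by
  refine ⟨fun w hw => ?_, part1 hφ ρ hX, fun _ z β hβ => part2 hφ ρ hX z β hβ, fun W hW => ⟨fun r y hy => ?_, ?_⟩⟩
  · have hw' : MZ.Word w := ((word_iff φ ρ w).1 hw).word
    refine ⟨?_, fun x => ?_, ?_⟩
    · rw [T_eq, zeta_eq]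
      exact MZ.T_zero hw'
    · rw [T_eq, zeta_eq, S_eq]
      exact MZ.S_add_T hw' x
    · rw [zeta_eq]
      refine (MZ.S_tendsto hw').congr fun x => ?_
      rw [S_eq]
  · have h := MZ.lyn_count hφ hX (fun w hw => (word_iff φ ρ w).1 (hW w hw)) y fun w hw => by
      have h1 := (alg_iff _ _).1 (hy w hw)
      rwa [zeta_eq] at h1
    have e : {x : ℂ | x ∈ X ∧ ¬ IndepAt W x} =
        {x : ℂ | x ∈ X ∧ ¬ AlgebraicIndependent KK (fun w : W => MZ.T w x)} := by
      ext x
      simp only [Set.mem_ofPred_eq, indepAt_iff]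
    rw [e]
    exact h
  · have h := MZ.lyn_count_zero hφ hX (fun w hw => (word_iff φ ρ w).1 (hW w hw))
    have e : {x : ℂ | (x ∈ X ∨ x = 0) ∧ ¬ IndepAt W x} =
        {x : ℂ | (x ∈ X ∨ x = 0) ∧ ¬ AlgebraicIndependent KK (fun w : W => MZ.T w x)} := by
      ext x
      simp only [Set.mem_ofPred_eq, indepAt_iff]
    rw [e]
    exact h

end Pool.Agent.Results.MP_c2d7b4_nt.LyndonExceptions
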